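import Pool.Agent.H615R3.DensConv

set_option autoImplicit false

namespace Pool.Agent.Results.MP_cd1425_an.FreqUFreq

open Pool.Agent.H615R3 Filter Topology

/-- Over `ℝ` and over `ℂ` there are (i) a Banach space and a frequently recurrent operator `T` on
it such that `T ⊕ T` is not frequently recurrent, and (ii) a Banach space and a
`𝒰`-frequently recurrent operator `T` on it such that `T ⊕ T` is not `𝒰`-frequently recurrent. -/
theorem result (𝕂 : Type) [RCLike 𝕂] :
    (∃ (X : Type) (_ : NormedAddCommGroup X) (_ : NormedSpace 𝕂 X) (_ : CompleteSpace X)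
      (T : X →L[𝕂] X), Dense {x : X | IsFRec T x} ∧
        ¬ Dense {z : X × X | IsFRec (T.prodMap T) z}) ∧
    (∃ (X : Type) (_ : NormedAddCommGroup X) (_ : NormedSpace 𝕂 X) (_ : CompleteSpace X)
      (T : X →L[𝕂] X), Dense {x : X | IsUFRec T x} ∧
        ¬ Dense {z : X × X | IsUFRec (T.prodMap T) z}) := by
  obtain ⟨E⟩ := Free.nonempty_enum 𝕂
  constructor
  · have hyp := FR.fr_hyp E
    refine ⟨Free.MM (FR.dat E), inferInstance, inferInstance, inferInstance,
      Free.TT (FR.dat E), ?_, ?_⟩
    · simp only [isFRec_iff]; exact hyp.dense_rec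
    · simp only [isFRec_iff]; exact hyp.sum_not_dense
  · have hyp := UF.uf_hyp E
    refine ⟨Free.MM (UF.dat E), inferInstance, inferInstance, inferInstance,
      Free.TT (UF.dat E), ?_, ?_⟩
    · simp only [isUFRec_iff]; exact hyp.dense_rec
    · simp only [isUFRec_iff]; exact hyp.sum_not_dense

end Pool.Agent.Results.MP_cd1425_an.FreqUFreq
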