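import Pool.Agent.H615R3.RecDefs
import Pool.Agent.H909R3.MP3dc4.Core

set_option autoImplicit false

namespace Pool.Agent.Results.MP_cd1425_an.UniformSum

open Pool.Agent.H615R3 Filter Topology

/-- Let `(T_j)` be a finite or countably infinite family of uniformly recurrent operators on Fréchet
spaces `X_j` (more generally on complete metrizable topological vector spaces). Then their direct
sum `(x_j) ↦ (T_j x_j)` on the product of the spaces `X_j` is uniformly recurrent. In particular
(`ι = Fin n` and `T_j = T` for all `j`), if `T` is uniformly recurrent then so is the direct sum of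
`n` copies of `T`, for every `n`. -/
theorem result {𝕜 : Type*} [RCLike 𝕜] {ι : Type*} [Countable ι] [Nonempty ι] {X : ι → Type*}
    [∀ j, AddCommGroup (X j)] [∀ j, Module 𝕜 (X j)] [∀ j, UniformSpace (X j)]
    [∀ j, IsUniformAddGroup (X j)] [∀ j, ContinuousSMul 𝕜 (X j)] [∀ j, CompleteSpace (X j)]
    [∀ j, T2Space (X j)] [∀ j, (uniformity (X j)).IsCountablyGenerated]
    (T : ∀ j, X j →L[𝕜] X j) (hT : ∀ j, Dense {x : X j | IsURec (T j) x}) :
    Dense {z : ∀ j, X j | IsURec (fun (w : ∀ j, X j) (j : ι) => T j (w j)) z} := by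
  classical
  set f : (∀ j, X j) → (∀ j, X j) := fun w j => T j (w j) with hf
  have hfc : Continuous f := continuous_pi fun j => (T j).continuous.comp (continuous_apply j)
  have hit : ∀ (n : ℕ) (w : ∀ j, X j) (j : ι), f^[n] w j = (T j)^[n] (w j) := by
    intro n
    induction n with
    | zero => intro w j; rfl
    | succ n ih =>
      intro w j
      rw [Function.iterate_succ_apply, Function.iterate_succ_apply, ih]
  have hcomm : ∀ (j : ι) (m n : ℕ) (v : X j),
      (T j)^[m] ((T j)^[n] v) = (T j)^[n] ((T j)^[m] v) := by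
    intro j m n v
    rw [← Function.iterate_add_apply, ← Function.iterate_add_apply, add_comm]
  obtain ⟨e, he⟩ := exists_surjective_nat ι
  choose i hi using he
  intro z
  rw [mem_closure_iff_nhds]
  intro U hU
  rw [nhds_pi, Filter.mem_pi] at hU
  obtain ⟨I, _, t, ht, hsub⟩ := hU
  have ha : ∀ j, ∃ a : X j, IsURec (T j) a ∧ t j ∈ 𝓝 a := by
    intro j
    obtain ⟨a, ha1, ha2⟩ := (hT j).inter_nhds_nonempty (interior_mem_nhds.2 (ht j))
    exact ⟨a, ha1, mem_interior_iff_mem_nhds.1 ha2⟩
  choose a haU hat using ha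
  let c : ∀ j, X j → (∀ j, X j) := fun j v => Function.update 0 j v
  have hcc : ∀ j, Continuous (c j) := fun j => continuous_const.update j continuous_id
  have hcf : ∀ (j : ι) (v : X j), f (c j v) = c j (T j v) := by
    intro j v
    ext k
    rw [hf]
    simp only [c]
    by_cases hk : k = j
    · subst hk; simp
    · rw [Function.update_of_ne hk, Function.update_of_ne hk]; simp
  have hcit : ∀ (j : ι) (n : ℕ) (v : X j), f^[n] (c j v) = c j ((T j)^[n] v) := by
    intro j n
    induction n with
    | zero => intro v; rfl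
    | succ n ih =>
      intro v
      rw [Function.iterate_succ_apply, Function.iterate_succ_apply, hcf, ih]
  let _ : MetricSpace (∀ j, X j) := UniformSpace.metricSpace _
  obtain ⟨x, hx1, _, hx2⟩ := H909R3.MP3dc4.core f hfc (fun k => c (e k) (a (e k))) (by
    intro k V hV
    obtain ⟨m, hm⟩ := haU (e k) _ ((hcc (e k)).continuousAt.preimage_mem_nhds hV)
    refine ⟨m, fun n => ?_⟩
    obtain ⟨l, hl, h1, h2⟩ := hm n
    refine ⟨l, h1, h2, hl.1, ?_⟩
    rw [hcit]
    exact hl.2)
  have hn : ∀ j, ∃ n : ℕ, (T j)^[n] (x (i j) j) ∈ t j := by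
    intro j
    have h1 := hx1 (i j)
    rw [mem_closure_iff_nhds] at h1
    have h2 : {w : ∀ j, X j | w j ∈ t j} ∈ 𝓝 (c (e (i j)) (a (e (i j)))) := by
      refine (continuous_apply j).continuousAt.preimage_mem_nhds ?_
      have h3 : c (e (i j)) (a (e (i j))) j = a j := by
        rw [hi j]; simp [c]
      rw [h3]
      exact hat j
    obtain ⟨w, hw1, n, rfl⟩ := h1 _ h2
    refine ⟨n, ?_⟩
    rw [← hit]
    exact hw1
  choose n hn using hn
  refine ⟨fun j => (T j)^[n j] (x (i j) j), hsub fun j _ => hn j, ?_⟩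
  intro V hV
  have hg : Continuous (fun (v : ℕ → (∀ j, X j)) (j : ι) => (T j)^[n j] (v (i j) j)) := by
    refine continuous_pi fun j => ?_
    exact ((T j).continuous.iterate (n j)).comp
      ((continuous_apply j).comp (continuous_apply (i j)))
  obtain ⟨m, hm⟩ := hx2 _ (hg.continuousAt.preimage_mem_nhds hV)
  refine ⟨m, fun k => ?_⟩
  obtain ⟨l, h1, h2, h3, h4⟩ := hm k
  refine ⟨l, ⟨h3, ?_⟩, h1, h2⟩
  have h5 : f^[l] (fun j => (T j)^[n j] (x (i j) j)) =
      fun j => (T j)^[n j] (f^[l] (x (i j)) j) := by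
    ext j
    rw [hit, hit, hcomm]
  rw [h5]
  exact h4

end Pool.Agent.Results.MP_cd1425_an.UniformSum
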