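import Pool.Agent.H615R3.RecDefs

set_option autoImplicit false

namespace Pool.Agent.Results.MP_cd1425_an.WindowReiterative

open Pool.Agent.H615R3 Filter Topology Set

open scoped Classical in
/-- alignment of one more set of positive upper Banach density -/
lemma step (A : Set ℕ) (α : ℝ) (hα : 0 < α)
    (h : ∀ L : ℕ, ∃ N m : ℕ, L ≤ N ∧ 1 ≤ N ∧ α * N ≤ ((A ∩ Icc (m + 1) (m + N)).ncard : ℝ))
    (N : ℕ) (Z : Finset ℕ) (hZ : ∀ n ∈ Z, n < N) :
    ∃ t : ℕ, α / 2 * Z.card ≤ ((Z.filter fun n => n + t ∈ A).card : ℝ) := by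
  obtain ⟨L, hL⟩ := exists_nat_ge (2 * (N : ℝ) / α)
  obtain ⟨M, m, hM, hM1, hm⟩ := h L
  have hNM : (N : ℝ) ≤ α * M / 2 := by
    have h1 : 2 * (N : ℝ) / α ≤ M := hL.trans (by exact_mod_cast hM)
    rw [div_le_iff₀ hα] at h1
    linarith
  by_contra hcon
  push Not at hcon
  set W : Finset ℕ := Finset.Icc (m + 1) (m + M) with hW
  have hWc : W.card = M := by rw [hW, Nat.card_Icc]; omega
  have hAW : ((A ∩ Icc (m + 1) (m + M)).ncard) = (W.filter fun t => t ∈ A).card := by
    rw [← Set.ncard_coe_finset]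
    congr 1
    ext t
    simp [hW, and_comm]
  rw [hAW] at hm
  have hMpos : (0 : ℝ) < M := by exact_mod_cast hM1
  -- upper bound
  have hup : ∑ t ∈ W, ((Z.filter fun n => n + t ∈ A).card : ℝ) < M * (α / 2 * Z.card) := by
    calc ∑ t ∈ W, ((Z.filter fun n => n + t ∈ A).card : ℝ) < ∑ _t ∈ W, (α / 2 * Z.card) := by
          apply Finset.sum_lt_sum_of_nonempty
          · rw [← Finset.card_pos, hWc]; omega
          · intro t _
            exact hcon t
      _ = M * (α / 2 * Z.card) := by rw [Finset.sum_const, hWc, nsmul_eq_mul]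
  -- lower bound
  have hlow : (Z.card : ℝ) * (α * M / 2) ≤ ∑ t ∈ W, ((Z.filter fun n => n + t ∈ A).card : ℝ) := by
    have h1 : ∑ t ∈ W, (Z.filter fun n => n + t ∈ A).card =
        ∑ n ∈ Z, (W.filter fun t => n + t ∈ A).card := by
      simp_rw [Finset.card_filter]
      exact Finset.sum_comm
    have h2 : ∀ n ∈ Z, α * M / 2 ≤ ((W.filter fun t => n + t ∈ A).card : ℝ) := by
      intro n hn
      have hnN : (n : ℝ) ≤ N := by exact_mod_cast (hZ n hn).le
      have h3 : (W.filter fun t => t ∈ A) ⊆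
          ((W.filter fun t => n + t ∈ A).image fun t => n + t) ∪ Finset.Icc (m + 1) (m + n) := by
        intro a ha
        rw [Finset.mem_filter, hW, Finset.mem_Icc] at ha
        rw [Finset.mem_union]
        by_cases hc : a ≤ m + n
        · right
          rw [Finset.mem_Icc]
          exact ⟨ha.1.1, hc⟩
        · left
          rw [Finset.mem_image]
          refine ⟨a - n, ?_, by omega⟩
          rw [Finset.mem_filter, hW, Finset.mem_Icc]
          refine ⟨⟨by omega, by omega⟩, ?_⟩
          rw [show n + (a - n) = a by omega]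
          exact ha.2
      have h4 : (W.filter fun t => t ∈ A).card ≤ (W.filter fun t => n + t ∈ A).card + n := by
        refine (Finset.card_le_card h3).trans ((Finset.card_union_le _ _).trans ?_)
        refine add_le_add Finset.card_image_le ?_
        rw [Nat.card_Icc]; omega
      have h5 : ((W.filter fun t => t ∈ A).card : ℝ) ≤
          ((W.filter fun t => n + t ∈ A).card : ℝ) + n := by exact_mod_cast h4
      linarith
    calc (Z.card : ℝ) * (α * M / 2) = ∑ _n ∈ Z, (α * M / 2) := by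
          rw [Finset.sum_const, nsmul_eq_mul]
      _ ≤ ∑ n ∈ Z, ((W.filter fun t => n + t ∈ A).card : ℝ) := Finset.sum_le_sum h2
      _ = ∑ t ∈ W, ((Z.filter fun n => n + t ∈ A).card : ℝ) := by exact_mod_cast h1.symm
  have : (Z.card : ℝ) * (α * M / 2) = M * (α / 2 * Z.card) := by ring
  linarith

/-- simultaneous alignment of finitely many sets of positive upper Banach density -/
lemma align {ι : Type*} (A : ι → Set ℕ) (hA : ∀ j, 0 < upperBanachDensity (A j))
    (s : Finset ι) :
    ∃ δ : ℝ, 0 < δ ∧ ∀ N : ℕ, 1 ≤ N → ∃ (c : ι → ℕ) (Z : Finset ℕ), (∀ n ∈ Z, n < N) ∧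
      (∀ n ∈ Z, ∀ j ∈ s, n + c j ∈ A j) ∧ δ * N ≤ (Z.card : ℝ) := by
  classical
  induction s using Finset.induction_on with
  | empty =>
    refine ⟨1, one_pos, fun N _ => ⟨fun _ => 0, Finset.range N, ?_, ?_, ?_⟩⟩
    · intro n hn; exact Finset.mem_range.1 hn
    · intro n _ j hj; simp at hj
    · rw [Finset.card_range, one_mul]
  | insert j s hj ih =>
    obtain ⟨δ, hδ, H⟩ := ih
    obtain ⟨α, hα, hw⟩ := (ubd_pos_iff (A j)).1 (hA j)
    refine ⟨α / 2 * δ, by positivity, fun N hN => ?_⟩
    obtain ⟨c, Z, hZ1, hZ2, hZ3⟩ := H N hN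
    obtain ⟨t, ht⟩ := step (A j) α hα hw N Z hZ1
    refine ⟨Function.update c j t, Z.filter fun n => n + t ∈ A j, ?_, ?_, ?_⟩
    · intro n hn
      exact hZ1 n (Finset.mem_filter.1 hn).1
    · intro n hn i hi
      rw [Finset.mem_filter] at hn
      by_cases hij : i = j
      · subst hij
        rw [Function.update_self]
        exact hn.2
      · rw [Function.update_of_ne hij]
        exact hZ2 n hn.1 i ((Finset.mem_insert.1 hi).resolve_left hij)
    · calc α / 2 * δ * N = α / 2 * (δ * N) := by ring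
        _ ≤ α / 2 * Z.card := by gcongr
        _ ≤ _ := ht

/-- Let `T_1, …, T_k` be reiteratively recurrent maps (operators) on topological spaces
`X_1, …, X_k`. Then the direct sum `S = T_1 ⊕ ⋯ ⊕ T_k` satisfies the finite-window form of
reiterative recurrence: for every non-empty open `U` there is `δ > 0` such that for every `N ≥ 1`
some point `z ∈ U` returns to `U` at least `δ N` times before time `N`. -/
theorem result {ι : Type*} [Finite ι] {X : ι → Type*} [∀ j, TopologicalSpace (X j)]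
    (T : ∀ j, X j → X j) (hT : ∀ j, Dense {x : X j | IsRRec (T j) x})
    (U : Set (∀ j, X j)) (hU : IsOpen U) (hne : U.Nonempty) :
    ∃ δ : ℝ, 0 < δ ∧ ∀ N : ℕ, 1 ≤ N → ∃ z ∈ U,
      δ * N ≤ (({n : ℕ | n < N ∧
        (fun (w : ∀ j, X j) (j : ι) => T j (w j))^[n] z ∈ U}).ncard : ℝ) := by
  classical
  have := Fintype.ofFinite ι
  set f : (∀ j, X j) → (∀ j, X j) := fun w j => T j (w j) with hf
  have hit : ∀ (n : ℕ) (w : ∀ j, X j) (j : ι), f^[n] w j = (T j)^[n] (w j) := by
    intro n
    induction n with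
    | zero => intro w j; rfl
    | succ n ih =>
      intro w j
      rw [Function.iterate_succ_apply, Function.iterate_succ_apply, ih]
  obtain ⟨w, hw⟩ := hne
  obtain ⟨V, hV, hVU⟩ := isOpen_pi_iff'.1 hU w hw
  have hx : ∀ j, ∃ x : X j, IsRRec (T j) x ∧ x ∈ V j := by
    intro j
    obtain ⟨x, hx1, hx2⟩ := (hT j).inter_open_nonempty (V j) (hV j).1 ⟨w j, (hV j).2⟩
    exact ⟨x, hx2, hx1⟩
  choose x hxr hxV using hx
  obtain ⟨δ, hδ, H⟩ := align (fun j => retSet (T j) (x j) (V j))
    (fun j => hxr j (V j) ((hV j).1.mem_nhds (hxV j))) Finset.univ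
  refine ⟨δ, hδ, fun N hN => ?_⟩
  obtain ⟨c, Z, hZ1, hZ2, hZ3⟩ := H N hN
  have hZne : Z.Nonempty := by
    rw [← Finset.card_pos]
    have h1 : (0 : ℝ) < δ * N := mul_pos hδ (by exact_mod_cast hN)
    exact_mod_cast h1.trans_le hZ3
  set n0 := Z.min' hZne with hn0
  have hn0Z : n0 ∈ Z := Finset.min'_mem _ _
  have key : ∀ n ∈ Z, f^[n - n0] (fun j => (T j)^[n0 + c j] (x j)) ∈ U := by
    intro n hn
    have hle : n0 ≤ n := Finset.min'_le _ _ hn
    apply hVU
    intro j _
    rw [hit, ← Function.iterate_add_apply, show n - n0 + (n0 + c j) = n + c j by omega]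
    exact (hZ2 n hn j (Finset.mem_univ j)).2
  refine ⟨fun j => (T j)^[n0 + c j] (x j), ?_, ?_⟩
  · have := key n0 hn0Z
    rwa [Nat.sub_self] at this
  · refine hZ3.trans ?_
    have h1 : (Z.image fun n => n - n0).card = Z.card := by
      apply Finset.card_image_of_injOn
      intro a ha b hb hab
      have h2 : n0 ≤ a := Finset.min'_le _ _ ha
      have h3 : n0 ≤ b := Finset.min'_le _ _ hb
      simp only at hab
      omega
    rw [← h1, ← Set.ncard_coe_finset]
    have hfin : ({n : ℕ | n < N ∧ f^[n] (fun j => (T j)^[n0 + c j] (x j)) ∈ U}).Finite :=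
      (Set.finite_lt_nat N).subset fun n hn => hn.1
    have h4 : ((Z.image fun n => n - n0 : Finset ℕ) : Set ℕ) ⊆
        {n : ℕ | n < N ∧ f^[n] (fun j => (T j)^[n0 + c j] (x j)) ∈ U} := by
      intro a ha
      rw [Finset.mem_coe, Finset.mem_image] at ha
      obtain ⟨n, hn, rfl⟩ := ha
      exact ⟨by have := hZ1 n hn; omega, key n hn⟩
    exact_mod_cast Set.ncard_le_ncard h4 hfin

end Pool.Agent.Results.MP_cd1425_an.WindowReiterative
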